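import Pool.Agent.helper40.SU.SpecA

set_option autoImplicit false

open Finset

namespace Pool.Agent.SU

theorem ADM : ADM_stmt := by
  intro m u k s w
  refine ⟨s * m * u ^ 2, s * u ^ 2, s * k * (m ^ 2 * u + 420 * k), w, ?_, ?_⟩
  · unfold Df
    ring
  · refine ⟨s ^ 2 * u ^ 3 * (m ^ 2 * u + 840 * k), ?_⟩
    ring

end Pool.Agent.SU
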