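import Pool.Agent.helper40.SU.SpecA

set_option autoImplicit false

open Finset

namespace Pool.Agent.SU

theorem DCO_sq {n : ℕ} (h : Odd n) : n ^ 2 ≡ 1 [MOD 8] := by
  have h1 : n % 8 = 1 ∨ n % 8 = 3 ∨ n % 8 = 5 ∨ n % 8 = 7 := by
    rcases h with ⟨a, rfl⟩
    omega
  change n ^ 2 % 8 = 1 % 8
  rcases h1 with h | h | h | h <;> simp [Nat.pow_mod, h]

theorem DCO_mod {m u k : ℕ} (hm : Odd m) (hu : Odd u) (hk : Odd k) : Df m u k % 8 = 3 := by
  have h1 : u ^ 4 ≡ 1 [MOD 8] := by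
    have : u ^ 4 = u ^ 2 * u ^ 2 := by ring
    rw [this]
    exact (DCO_sq hu).mul (DCO_sq hu)
  have h2 : (m ^ 2 + 1) * u ^ 4 ≡ (1 + 1) * 1 [MOD 8] :=
    (((DCO_sq hm).add_right 1)).mul h1
  have h3 : Odd (k * (m ^ 2 * u + 420 * k)) := by
    refine hk.mul (Odd.add_even ((hm.pow).mul hu) ?_)
    exact (show Even (420 * k) from ⟨210 * k, by ring⟩)
  have h4 := h2.add (DCO_sq h3)
  exact h4

theorem DCO_cong {m u k u' k' N : ℕ} (hu : u ≡ u' [MOD N]) (hk : k ≡ k' [MOD N]) :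
    Df m u k ≡ Df m u' k' [MOD N] := by
  unfold Df
  exact ((hu.pow 4).mul_left _).add ((hk.mul ((hu.mul_left _).add (hk.mul_left _))).pow 2)

theorem DCO_mono {m u k u' k' : ℕ} (hu : u ≤ u') (hk : k ≤ k') : Df m u k ≤ Df m u' k' := by
  unfold Df
  gcongr

theorem DCO_hom (m l a b : ℕ) : Df m (a * l) (b * l) = Df m a b * l ^ 4 := by
  unfold Df
  ring

theorem DCO : DCO_stmt := by
  intro Z m q u₀ k₀ K hD hK
  have hq : 0 < q := hD.q_odd.pos
  refine ⟨?_, ?_⟩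
  · unfold Bx
    rw [card_image_of_injective, card_product, Nat.card_Ico]
    · have : 2 * K - K = K := by omega
      rw [this]
      ring
    · rintro ⟨a, b⟩ ⟨a', b'⟩ h
      have h1 : u₀ + 64 * q * a = u₀ + 64 * q * a' := congrArg Prod.fst h
      have h2 : k₀ + 64 * q * b = k₀ + 64 * q * b' := congrArg Prod.snd h
      have h3 : 0 < 64 * q := by omega
      have h4 : a = a' := Nat.eq_of_mul_eq_mul_left h3 (Nat.add_left_cancel h1)
      have h5 : b = b' := Nat.eq_of_mul_eq_mul_left h3 (Nat.add_left_cancel h2)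
      rw [h4, h5]
  · intro x hx
    unfold Bx at hx
    rw [mem_image] at hx
    obtain ⟨⟨i, j⟩, hij, rfl⟩ := hx
    rw [mem_product, mem_Ico, mem_Ico] at hij
    obtain ⟨⟨i1, i2⟩, j1, j2⟩ := hij
    change Df m (u₀ + 64 * q * i) (k₀ + 64 * q * j) % (64 * q) = _ ∧
      Df m (u₀ + 64 * q * i) (k₀ + 64 * q * j) % 8 = 3 ∧
      (Df m (u₀ + 64 * q * i) (k₀ + 64 * q * j)).Coprime (2 * q) ∧
      64 * q * K ≤ u₀ + 64 * q * i ∧ 64 * q * K ≤ k₀ + 64 * q * j ∧
      u₀ + 64 * q * i ≤ 128 * q * K ∧ k₀ + 64 * q * j ≤ 128 * q * K ∧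
      Df m (64 * q) (64 * q) * K ^ 4 ≤ Df m (u₀ + 64 * q * i) (k₀ + 64 * q * j) ∧
      Df m (u₀ + 64 * q * i) (k₀ + 64 * q * j) ≤ 16 * Df m (64 * q) (64 * q) * K ^ 4
    have c1 : u₀ + 64 * q * i ≡ u₀ [MOD 64 * q] := by
      change (u₀ + 64 * q * i) % (64 * q) = u₀ % (64 * q)
      exact Nat.add_mul_mod_self_left _ _ _
    have c2 : k₀ + 64 * q * j ≡ k₀ [MOD 64 * q] := by
      change (k₀ + 64 * q * j) % (64 * q) = k₀ % (64 * q)
      exact Nat.add_mul_mod_self_left _ _ _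
    have c3 := DCO_cong (m := m) c1 c2
    have e1 : Odd (u₀ + 64 * q * i) := hD.u_odd.add_even ⟨32 * q * i, by ring⟩
    have e2 : Odd (k₀ + 64 * q * j) := hD.k_odd.add_even ⟨32 * q * j, by ring⟩
    have c4 := DCO_mod hD.m_odd e1 e2
    have b1 : 64 * q * K ≤ u₀ + 64 * q * i :=
      (Nat.mul_le_mul_left _ i1).trans (Nat.le_add_left _ _)
    have b2 : 64 * q * K ≤ k₀ + 64 * q * j :=
      (Nat.mul_le_mul_left _ j1).trans (Nat.le_add_left _ _)
    have b3 : u₀ + 64 * q * i ≤ 128 * q * K := by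
      have h1 : 64 * q * (i + 1) ≤ 64 * q * (2 * K) := Nat.mul_le_mul_left _ i2
      have h2 := hD.u_le
      nlinarith
    have b4 : k₀ + 64 * q * j ≤ 128 * q * K := by
      have h1 : 64 * q * (j + 1) ≤ 64 * q * (2 * K) := Nat.mul_le_mul_left _ j2
      have h2 := hD.k_le
      nlinarith
    refine ⟨c3, c4, ?_, b1, b2, b3, b4, ?_, ?_⟩
    · rw [Nat.coprime_mul_iff_right]
      constructor
      · rw [Nat.coprime_two_right]
        rw [Nat.odd_iff]
        omega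
      · have c5 : Df m (u₀ + 64 * q * i) (k₀ + 64 * q * j) ≡ Df m u₀ k₀ [MOD q] :=
          c3.of_dvd (Dvd.intro_left 64 rfl)
        unfold Nat.Coprime
        rw [c5.gcd_eq]
        exact hD.cop
    · rw [← DCO_hom]
      exact DCO_mono b1 b2
    · have h1 : 16 * Df m (64 * q) (64 * q) * K ^ 4 =
          Df m (64 * q * (2 * K)) (64 * q * (2 * K)) := by
        rw [DCO_hom m (2 * K) (64 * q) (64 * q)]
        ring
      rw [h1]
      refine DCO_mono (b3.trans (le_of_eq ?_)) (b4.trans (le_of_eq ?_))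
      · ring
      · ring

end Pool.Agent.SU
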